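import Pool.Agent.Lib.PerE.DegMain

set_option autoImplicit false

/-!
# Periodic restricted Lie algebras: subspaces on which the degrees of the inner derivations are bounded
-/

namespace Pool.Agent.Results.MP_84341e_al.BoundedDegree

universe u v

/-- `φ` is a `p`-operation on the Lie algebra `L` over `F` (restricted Lie algebra): `φ` is
`p`-semilinear for scalars, `ad (φ x) = (ad x) ^ p`, and Jacobson's formula for `φ (x + y)` holds,
stated in the universal enveloping algebra: `(x + y) ^ p - x ^ p - y ^ p = φ (x + y) - φ x - φ y`. -/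
structure IsPOperation (p : ℕ) (F : Type u) [Field F] (L : Type v) [LieRing L] [LieAlgebra F L]
    (φ : L → L) : Prop where
  smul : ∀ (c : F) (x : L), φ (c • x) = c ^ p • φ x
  ad : ∀ x y : L, ⁅φ x, y⁆ = ((LieAlgebra.ad F L x) ^ p) y
  add : ∀ x y : L,
    (UniversalEnvelopingAlgebra.ι F (φ (x + y)) : UniversalEnvelopingAlgebra F L)
      - UniversalEnvelopingAlgebra.ι F (φ x) - UniversalEnvelopingAlgebra.ι F (φ y)
      = (UniversalEnvelopingAlgebra.ι F (x + y) : UniversalEnvelopingAlgebra F L) ^ p
        - (UniversalEnvelopingAlgebra.ι F x : UniversalEnvelopingAlgebra F L) ^ p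
        - (UniversalEnvelopingAlgebra.ι F y : UniversalEnvelopingAlgebra F L) ^ p

/-- Let `L` be a restricted Lie algebra over a field `F` of characteristic `p` with periodic
`p`-operation, `V` a subspace of `L` and `e` a natural number such that `F` has more than
`e (e + 1) / 2` elements and such that, for all `v` in `V`, `ad v` is a root of a nonzero polynomial
over `F` of degree at most `e`. Then the image of `V` in `L / Z(L)` has dimension at most
`e (e - 1) / 2`. -/
theorem result (p : ℕ) (hp : p.Prime) (F : Type u) [Field F] [CharP F p] (L : Type v) [LieRing L]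
    [LieAlgebra F L] (φ : L → L) (hφ : IsPOperation p F L φ)
    (hper : ∀ x : L, ∃ n : ℕ, 0 < n ∧ φ^[n] x = x) (V : Submodule F L) (e : ℕ)
    (hF : ∃ S : Finset F, e * (e + 1) / 2 < S.card)
    (hdeg : ∀ v ∈ V, ∃ q : Polynomial F, q ≠ 0 ∧ q.natDegree ≤ e ∧
      Polynomial.aeval (LieAlgebra.ad F L v) q = 0) :
    Module.rank F (V.map (LieAlgebra.center F L).toSubmodule.mkQ) ≤ (e * (e - 1) / 2 : ℕ) := by
  have : Fact p.Prime := ⟨hp⟩
  have hit : ∀ (n : ℕ) (x : L), LieAlgebra.ad F L (φ^[n] x) = (LieAlgebra.ad F L x) ^ (p ^ n) := by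
    intro n x
    induction n with
    | zero => simp
    | succ n ih =>
      rw [Function.iterate_succ_apply', pow_succ, pow_mul, ← ih]
      ext y
      exact hφ.ad _ y
  have hPer : PerE.Per p F L := by
    constructor
    · intro x
      refine ⟨φ x, ?_⟩
      ext y
      exact (hφ.ad x y).symm
    · intro x
      obtain ⟨n, hn, hx⟩ := hper x
      refine ⟨n, hn, ?_⟩
      rw [← hit, hx]
  obtain ⟨S, hS⟩ := hF
  exact PerE.deg_bound hPer V e S hS hdeg

end Pool.Agent.Results.MP_84341e_al.BoundedDegree
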