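import Mathlib

set_option autoImplicit false

/-!
# Periodic restricted Lie algebras: elements with a period `p ^ k * m`, `F_{p^m} ⊆ F`, are central
-/

namespace Pool.Agent.Results.MP_84341e_al.CentralPeriods

open Polynomial

universe u v

/-- `φ` is a `p`-operation on the Lie algebra `L` over `F` (restricted Lie algebra): `φ` is
`p`-semilinear for scalars, `ad (φ x) = (ad x) ^ p`, and Jacobson's formula for `φ (x + y)` holds,
stated in the universal enveloping algebra: `(x + y) ^ p - x ^ p - y ^ p = φ (x + y) - φ x - φ y`. -/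
structure IsPOperation (p : ℕ) (F : Type u) [Field F] (L : Type v) [LieRing L] [LieAlgebra F L]
    (φ : L → L) : Prop where
  smul : ∀ (c : F) (x : L), φ (c • x) = c ^ p • φ x
  ad : ∀ x y : L, ⁅φ x, y⁆ = ((LieAlgebra.ad F L x) ^ p) y
  add : ∀ x y : L,
    (UniversalEnvelopingAlgebra.ι F (φ (x + y)) : UniversalEnvelopingAlgebra F L)
      - UniversalEnvelopingAlgebra.ι F (φ x) - UniversalEnvelopingAlgebra.ι F (φ y)
      = (UniversalEnvelopingAlgebra.ι F (x + y) : UniversalEnvelopingAlgebra F L) ^ p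
        - (UniversalEnvelopingAlgebra.ι F x : UniversalEnvelopingAlgebra F L) ^ p
        - (UniversalEnvelopingAlgebra.ι F y : UniversalEnvelopingAlgebra F L) ^ p

/-- If a polynomial that splits kills a nonzero vector then one of its roots is an eigenvalue. -/
theorem exists_eigen {F : Type u} [Field F] {V : Type v} [AddCommGroup V] [Module F V]
    (b : Module.End F V) (s : Multiset F) (w : V) (hw : w ≠ 0)
    (h : aeval b (s.map fun a => X - C a).prod w = 0) :
    ∃ c ∈ s, ∃ z : V, z ≠ 0 ∧ b z = c • z := by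
  induction s using Multiset.induction_on generalizing w with
  | empty =>
    exfalso
    apply hw
    simpa using h
  | cons a s ih =>
    by_cases h0 : aeval b (s.map fun a => X - C a).prod w = 0
    · obtain ⟨c, hc, z, hz⟩ := ih w hw h0
      exact ⟨c, Multiset.mem_cons_of_mem hc, z, hz⟩
    · refine ⟨a, Multiset.mem_cons_self a s, _, h0, ?_⟩
      rw [Multiset.map_cons, Multiset.prod_cons, map_mul, Module.End.mul_apply] at h
      simp only [map_sub, aeval_X, aeval_C, LinearMap.sub_apply,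
        Module.algebraMap_end_apply] at h
      exact sub_eq_zero.mp h

section

variable {p : ℕ} {F : Type u} [Field F] {L : Type v} [LieRing L]
  [LieAlgebra F L] {φ : L → L}

theorem ad_iterate (hφ : IsPOperation p F L φ) (n : ℕ) (x : L) :
    LieAlgebra.ad F L (φ^[n] x) = (LieAlgebra.ad F L x) ^ (p ^ n) := by
  induction n with
  | zero => simp
  | succ n ih =>
    rw [Function.iterate_succ_apply', pow_succ, pow_mul, ← ih]
    ext y
    exact hφ.ad _ y

/-- No eigenvectors for nonzero eigenvalues in `F`. -/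
theorem no_eigen (hp : p.Prime) (hφ : IsPOperation p F L φ)
    (hper : ∀ x : L, ∃ n : ℕ, 0 < n ∧ φ^[n] x = x) (t z : L) (c : F) (hc : c ≠ 0)
    (h : ⁅t, z⁆ = c • z) : z = 0 := by
  obtain ⟨n, hn, hz⟩ := hper z
  have h1 : LieAlgebra.ad F L z = (LieAlgebra.ad F L z) ^ (p ^ n) := by
    rw [← ad_iterate hφ, hz]
  have h2 : LieAlgebra.ad F L z t = -(c • z) := by
    rw [LieAlgebra.ad_apply, ← lie_skew, h]
  have h3 : LieAlgebra.ad F L z (LieAlgebra.ad F L z t) = 0 := by
    rw [h2, map_neg, map_smul, LieAlgebra.ad_apply, lie_self, smul_zero, neg_zero]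
  have h4 : 2 ≤ p ^ n := by
    calc 2 ≤ p := hp.two_le
      _ = p ^ 1 := (pow_one p).symm
      _ ≤ p ^ n := Nat.pow_le_pow_right hp.pos hn
  obtain ⟨r, hr⟩ := Nat.exists_eq_add_of_le h4
  have h5 : LieAlgebra.ad F L z t = 0 := by
    rw [h1, hr, add_comm, pow_add, Module.End.mul_apply, pow_two, Module.End.mul_apply, h3,
      map_zero]
  rw [h2, neg_eq_zero] at h5
  exact (smul_eq_zero.mp h5).resolve_left hc

/-- If `ad t` satisfies `(ad t) ^ (p ^ m) = ad t` and `X ^ (p ^ m) - X` splits over `F`, then `t` is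
central. -/
theorem central_of_pow (hp : p.Prime) (hφ : IsPOperation p F L φ)
    (hper : ∀ x : L, ∃ n : ℕ, 0 < n ∧ φ^[n] x = x) {m : ℕ} (hm : 0 < m)
    (hF : (X ^ (p ^ m) - X : F[X]).Splits) (t : L)
    (ht : (LieAlgebra.ad F L t) ^ (p ^ m) = LieAlgebra.ad F L t) : LieAlgebra.ad F L t = 0 := by
  by_contra hne
  obtain ⟨v, hv⟩ : ∃ v, LieAlgebra.ad F L t v ≠ 0 := by
    by_contra hall
    push Not at hall
    exact hne (LinearMap.ext hall)
  have hpm : 2 ≤ p ^ m := by
    calc 2 ≤ p := hp.two_le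
      _ = p ^ 1 := (pow_one p).symm
      _ ≤ p ^ m := Nat.pow_le_pow_right hp.pos hm
  obtain ⟨r, hr⟩ := Nat.exists_eq_add_of_le hpm
  have hfac : (X ^ (p ^ m) - X : F[X]) = X * (X ^ (r + 1) - 1) := by
    rw [hr]
    ring
  have hne0 : (X ^ (r + 1) - 1 : F[X]) ≠ 0 := by
    apply Monic.ne_zero
    exact monic_X_pow_sub_C (1 : F) (Nat.succ_ne_zero r)
  have hsplit : (X ^ (r + 1) - 1 : F[X]).Splits := by
    rw [hfac] at hF
    exact Splits.of_dvd hF (mul_ne_zero X_ne_zero hne0) (dvd_mul_left _ _)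
  have hmon : (X ^ (r + 1) - 1 : F[X]).Monic := monic_X_pow_sub_C (1 : F) (Nat.succ_ne_zero r)
  have hprod : (X ^ (r + 1) - 1 : F[X]) =
      ((X ^ (r + 1) - 1 : F[X]).roots.map fun a => X - C a).prod :=
    hsplit.eq_prod_roots_of_monic hmon
  have hkill : aeval (LieAlgebra.ad F L t) (X ^ (r + 1) - 1 : F[X]) (LieAlgebra.ad F L t v) = 0 := by
    have h1 : aeval (LieAlgebra.ad F L t) (X ^ (p ^ m) - X : F[X]) v = 0 := by
      simp only [map_sub, map_pow, aeval_X, ht, sub_self, LinearMap.zero_apply]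
    rw [hfac, mul_comm, map_mul, aeval_X, Module.End.mul_apply] at h1
    exact h1
  rw [hprod] at hkill
  obtain ⟨c, hc, z, hz, hzc⟩ := exists_eigen _ _ _ hv hkill
  have hroot : c ^ (r + 1) = 1 := by
    have := (mem_roots hne0).mp hc
    rw [IsRoot.def, eval_sub, eval_pow, eval_X, eval_one] at this
    exact sub_eq_zero.mp this
  have hc0 : c ≠ 0 := by
    rintro rfl
    rw [zero_pow (Nat.succ_ne_zero r)] at hroot
    exact zero_ne_one hroot
  exact hz (no_eigen hp hφ hper t z c hc0 hzc)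

end

/-- In characteristic `p`, with `σ` the `m`-th power of the Frobenius of `F[X]`,
`(σ - 1) ^ (p ^ k) X = X ^ (p ^ (p ^ k * m)) - X`. -/
theorem exists_seq (p : ℕ) [Fact p.Prime] (F : Type u) [Field F] [CharP F p] (m k : ℕ) :
    ∃ B : ℕ → F[X], B 0 = X ∧ (∀ j, B (j + 1) = B j ^ (p ^ m) - B j) ∧
      B (p ^ k) = X ^ (p ^ (p ^ k * m)) - X := by
  let _ : Algebra (ZMod p) F := ZMod.algebra F p
  let σ : Module.End (ZMod p) F[X] :=
    AddMonoidHom.toZModLinearMap p (iterateFrobenius F[X] p m : F[X] →+ F[X])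
  have hσ : ∀ f : F[X], σ f = f ^ (p ^ m) := fun f => rfl
  have hσn : ∀ (n : ℕ) (f : F[X]), (σ ^ n) f = f ^ (p ^ (n * m)) := by
    intro n f
    induction n with
    | zero => simp
    | succ n ih =>
      rw [pow_succ', Module.End.mul_apply, ih, hσ, ← pow_mul, ← pow_add]
      congr 2
      ring
  have hchar : CharP (Module.End (ZMod p) F[X]) p :=
    charP_of_injective_algebraMap (algebraMap (ZMod p) (Module.End (ZMod p) F[X])).injective p
  refine ⟨fun j => ((σ - 1) ^ j) X, ?_, ?_, ?_⟩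
  · simp
  · intro j
    change ((σ - 1) ^ (j + 1)) X = (((σ - 1) ^ j) X) ^ (p ^ m) - ((σ - 1) ^ j) X
    rw [pow_succ', Module.End.mul_apply, LinearMap.sub_apply, hσ, Module.End.one_apply]
  · change ((σ - 1) ^ (p ^ k)) X = _
    rw [sub_pow_char_pow_of_commute p k (Commute.one_right σ), one_pow,
      LinearMap.sub_apply, hσn, Module.End.one_apply]

/-- Let `L` be a periodic restricted Lie algebra over a field `F` of characteristic `p`. If
`x ∈ L` has a period of the form `p ^ k * m`, `m ≥ 1`, such that `F` contains the field with `p ^ m`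
elements (`X ^ (p ^ m) - X` splits over `F`), then `x` is central. -/
theorem result (p : ℕ) (hp : p.Prime) (F : Type u) [Field F] [CharP F p] (L : Type v) [LieRing L]
    [LieAlgebra F L] (φ : L → L) (hφ : IsPOperation p F L φ)
    (hper : ∀ x : L, ∃ n : ℕ, 0 < n ∧ φ^[n] x = x)
    (x : L) (k m : ℕ) (hm : 0 < m) (hF : (X ^ (p ^ m) - X : F[X]).Splits)
    (hx : φ^[p ^ k * m] x = x) (y : L) : ⁅x, y⁆ = 0 := by
  have hpf : Fact p.Prime := ⟨hp⟩
  obtain ⟨B, hB0, hBs, hBk⟩ := exists_seq p F m k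
  -- the sequence `t_{j+1} = φ^m t_j - t_j`
  let t : ℕ → L := fun j => Nat.rec x (fun _ z => φ^[m] z - z) j
  have t0 : t 0 = x := rfl
  have ts : ∀ j, t (j + 1) = φ^[m] (t j) - t j := fun j => rfl
  have had : ∀ j, LieAlgebra.ad F L (t (j + 1)) =
      (LieAlgebra.ad F L (t j)) ^ (p ^ m) - LieAlgebra.ad F L (t j) := by
    intro j
    rw [ts, map_sub, ad_iterate hφ]
  have hB : ∀ j, LieAlgebra.ad F L (t j) = aeval (LieAlgebra.ad F L x) (B j) := by
    intro j
    induction j with
    | zero => rw [hB0, aeval_X, t0]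
    | succ j ih => rw [had, hBs, map_sub, map_pow, ih]
  have htop : LieAlgebra.ad F L (t (p ^ k)) = 0 := by
    rw [hB, hBk, map_sub, map_pow, aeval_X, ← ad_iterate hφ, hx, sub_self]
  have hdown : ∀ i j, i + j = p ^ k → LieAlgebra.ad F L (t j) = 0 := by
    intro i
    induction i with
    | zero =>
      intro j hj
      rw [zero_add] at hj
      rw [hj]
      exact htop
    | succ i ih =>
      intro j hj
      have h1 := ih (j + 1) (by omega)
      rw [had, sub_eq_zero] at h1
      exact central_of_pow hp hφ hper hm hF (t j) h1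
  have h0 := hdown (p ^ k) 0 (by ring)
  rw [t0] at h0
  have := LinearMap.congr_fun h0 y
  simpa using this

end Pool.Agent.Results.MP_84341e_al.CentralPeriods
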