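import Pool.Agent.Lib.PerE.Codim

set_option autoImplicit false

/-!
# Periodic restricted Lie algebras: centralisers of finite codimension
-/

namespace Pool.Agent.Results.MP_84341e_al.FiniteCodimension

universe u v

/-- `φ` is a `p`-operation on the Lie algebra `L` over `F` (restricted Lie algebra): `φ` is
`p`-semilinear for scalars, `ad (φ x) = (ad x) ^ p`, and Jacobson's formula for `φ (x + y)` holds,
stated in the universal enveloping algebra: `(x + y) ^ p - x ^ p - y ^ p = φ (x + y) - φ x - φ y`. -/
structure IsPOperation (p : ℕ) (F : Type u) [Field F] (L : Type v) [LieRing L] [LieAlgebra F L]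
    (φ : L → L) : Prop where
  smul : ∀ (c : F) (x : L), φ (c • x) = c ^ p • φ x
  ad : ∀ x y : L, ⁅φ x, y⁆ = ((LieAlgebra.ad F L x) ^ p) y
  add : ∀ x y : L,
    (UniversalEnvelopingAlgebra.ι F (φ (x + y)) : UniversalEnvelopingAlgebra F L)
      - UniversalEnvelopingAlgebra.ι F (φ x) - UniversalEnvelopingAlgebra.ι F (φ y)
      = (UniversalEnvelopingAlgebra.ι F (x + y) : UniversalEnvelopingAlgebra F L) ^ p
        - (UniversalEnvelopingAlgebra.ι F x : UniversalEnvelopingAlgebra F L) ^ p
        - (UniversalEnvelopingAlgebra.ι F y : UniversalEnvelopingAlgebra F L) ^ p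

/-- The centraliser `C(X)` of a subset `X` of `L`: the subspace of all `y` with `[x, y] = 0` for all
`x` in `X`. -/
def centraliser (F : Type u) [Field F] {L : Type v} [LieRing L] [LieAlgebra F L] (X : Set L) :
    Submodule F L where
  carrier := {y | ∀ x ∈ X, ⁅x, y⁆ = 0}
  add_mem' := by
    intro a b ha hb x hx
    rw [lie_add, ha x hx, hb x hx, add_zero]
  zero_mem' := by
    intro x _
    simp
  smul_mem' := by
    intro c a ha x hx
    rw [lie_smul, ha x hx, smul_zero]

/-- Let `L` be a restricted Lie algebra over a field `F` of characteristic `p` with periodic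
`p`-operation, `X` a set of pairwise commuting elements of `L` and `Y` any subset of `L`. If
`C(X ∪ Y)` has finite codimension in `C(X)`, then the elements of `X ∪ Y` commute pairwise. -/
theorem result (p : ℕ) (hp : p.Prime) (F : Type u) [Field F] [CharP F p] (L : Type v) [LieRing L]
    [LieAlgebra F L] (φ : L → L) (hφ : IsPOperation p F L φ)
    (hper : ∀ x : L, ∃ n : ℕ, 0 < n ∧ φ^[n] x = x) (X Y : Set L)
    (hX : ∀ x ∈ X, ∀ y ∈ X, ⁅x, y⁆ = 0)
    (hfin : FiniteDimensional F ((centraliser F X).map (centraliser F (X ∪ Y)).mkQ)) :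
    ∀ x ∈ X ∪ Y, ∀ y ∈ X ∪ Y, ⁅x, y⁆ = 0 := by
  have : Fact p.Prime := ⟨hp⟩
  have hit : ∀ (n : ℕ) (x : L), LieAlgebra.ad F L (φ^[n] x) = (LieAlgebra.ad F L x) ^ (p ^ n) := by
    intro n x
    induction n with
    | zero => simp
    | succ n ih =>
      rw [Function.iterate_succ_apply', pow_succ, pow_mul, ← ih]
      ext y
      exact hφ.ad _ y
  have hPer : PerE.Per p F L := by
    constructor
    · intro x
      refine ⟨φ x, ?_⟩
      ext y
      exact (hφ.ad x y).symm
    · intro x
      obtain ⟨n, hn, hx⟩ := hper x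
      refine ⟨n, hn, ?_⟩
      rw [← hit, hx]
  exact PerE.codim hPer X Y hX hfin

end Pool.Agent.Results.MP_84341e_al.FiniteCodimension
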