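import Pool.Agent.Lib.PerH.Main

set_option autoImplicit false

/-!
# Periodic restricted Lie algebras: linear images
-/

namespace Pool.Agent.Results.MP_84341e_al.LinearImages

universe u v w w'

/-- `φ` is a `p`-operation on the Lie algebra `L` over `F` (restricted Lie algebra): `φ` is
`p`-semilinear for scalars, `ad (φ x) = (ad x) ^ p`, and Jacobson's formula for `φ (x + y)` holds,
stated in the universal enveloping algebra: `(x + y) ^ p - x ^ p - y ^ p = φ (x + y) - φ x - φ y`. -/
structure IsPOperation (p : ℕ) (F : Type u) [Field F] (L : Type v) [LieRing L] [LieAlgebra F L]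
    (φ : L → L) : Prop where
  smul : ∀ (c : F) (x : L), φ (c • x) = c ^ p • φ x
  ad : ∀ x y : L, ⁅φ x, y⁆ = ((LieAlgebra.ad F L x) ^ p) y
  add : ∀ x y : L,
    (UniversalEnvelopingAlgebra.ι F (φ (x + y)) : UniversalEnvelopingAlgebra F L)
      - UniversalEnvelopingAlgebra.ι F (φ x) - UniversalEnvelopingAlgebra.ι F (φ y)
      = (UniversalEnvelopingAlgebra.ι F (x + y) : UniversalEnvelopingAlgebra F L) ^ p
        - (UniversalEnvelopingAlgebra.ι F x : UniversalEnvelopingAlgebra F L) ^ p
        - (UniversalEnvelopingAlgebra.ι F y : UniversalEnvelopingAlgebra F L) ^ p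

/-- Let `L` be a restricted Lie algebra over a field `F` of characteristic `p` with periodic
`p`-operation. Let `P` be a Lie subring of `L` (an additive subgroup closed under brackets), `C` a
commutative ring, `M` a `C`-module and `ρ : P → End_C M` a homomorphism of Lie rings. If `x, y ∈ P`
and `m` is an element of a finitely generated `C`-submodule `M₀` of `M` which is stable under `ρ x`
and `ρ y`, then `ρ [x, y]` maps `m` to zero. -/
theorem result (p : ℕ) (hp : p.Prime) (F : Type u) [Field F] [CharP F p] (L : Type v) [LieRing L]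
    [LieAlgebra F L] (φ : L → L) (hφ : IsPOperation p F L φ)
    (hper : ∀ x : L, ∃ n : ℕ, 0 < n ∧ φ^[n] x = x)
    (P : AddSubgroup L) (hP : ∀ x ∈ P, ∀ y ∈ P, ⁅x, y⁆ ∈ P)
    (C : Type w) [CommRing C] (M : Type w') [AddCommGroup M] [Module C M]
    (ρ : P →+ Module.End C M)
    (hρ : ∀ x y : P, ρ ⟨⁅(x : L), (y : L)⁆, hP x x.2 y y.2⟩ = ρ x * ρ y - ρ y * ρ x)
    (x y : P) (M₀ : Submodule C M) (hfg : M₀.FG) (hx : ∀ m ∈ M₀, ρ x m ∈ M₀)
    (hy : ∀ m ∈ M₀, ρ y m ∈ M₀) :
    ∀ m ∈ M₀, ρ ⟨⁅(x : L), (y : L)⁆, hP x x.2 y y.2⟩ m = 0 := by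
  have : Fact p.Prime := ⟨hp⟩
  have hit : ∀ (n : ℕ) (x : L), LieAlgebra.ad F L (φ^[n] x) = (LieAlgebra.ad F L x) ^ (p ^ n) := by
    intro n x
    induction n with
    | zero => simp
    | succ n ih =>
      rw [Function.iterate_succ_apply', pow_succ, pow_mul, ← ih]
      ext y
      exact hφ.ad _ y
  have hPer : PerE.Per p F L := by
    constructor
    · intro x
      refine ⟨φ x, ?_⟩
      ext y
      exact (hφ.ad x y).symm
    · intro x
      obtain ⟨n, hn, hx⟩ := hper x
      refine ⟨n, hn, ?_⟩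
      rw [← hit, hx]
  exact PerH.lin hPer P hP ρ hρ x y M₀ hfg hx hy

end Pool.Agent.Results.MP_84341e_al.LinearImages
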